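import Pool.Agent.H446.AP.Ops
import Pool.Agent.H446.AP2.Count
import Pool.Agent.H446.AP2.Pairs
import Pool.Graph.R_seed8.W432.PC.Ddx

/-!
# Algebraic accessory parameters of all degrees: few have few bad primes

Let `L_ω = L_0 + ω L_1 + ⋯ + ω ^ d L_d` with arbitrary differential operators `L_k` of order at most `n` with
coefficients in `ℤ[x]`; for example an operator with an accessory parameter `ω` (`d = 1`, `L_1 = r(x)`). The parameter
`ω` is an arbitrary algebraic number, of any degree over `ℚ`. A prime `p` is bad for `ω` if for some reduction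
`z ∈ 𝔽̄_p` of `ω` modulo a prime ideal over `p` the operator `L_z` over `𝔽̄_p(x)` does not have a full basis of rational
solutions.

We show that the number of the algebraic numbers `ω` of degree at most `D` and of logarithmic height at most `H` which
have few bad primes is at most `C D (1 + H) exp (2 d H / n)`, for all `D` and `H`. There are about `exp (D (D + 1) H)`
algebraic numbers of degree `D` and of height at most `H`. In particular, for every `H` the number of the exceptional
`ω` (up to conjugation) with a degree between `D / 2` and `D` is bounded independently of `D`.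

Proof. Modulo `p` at most `d p / n` elements of `𝔽̄_p` are good (a starting theorem). Let `P`, `Q` be the minimal
polynomials over `ℤ` of two of the numbers. If they have `r` common roots in `𝔽̄_p`, then `p ^ r` divides their
resultant, which is at most `2 ^ (deg P deg Q) M(P) ^ (deg Q) M(Q) ^ (deg P)`, with the Mahler measures `M(P)` and
`M(Q)`. If `P` has only `s` roots in `𝔽̄_p`, then `p ^ (deg P - s)` divides the resultant of `P` and `P'`; so on the
average over the primes larger than `D (1 + H)` this number is almost `deg P`. A larger sieve with these weights gives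
the theorem.
-/

set_option autoImplicit false

namespace Pool.Agent.Results.MP_aa40d3_nt.AlgebraicParameters

open Polynomial Finset

/-- `P` is the minimal polynomial over `ℤ` of an algebraic number `ω`, and of its conjugates. The degree of `ω` is
`P.natDegree`; its absolute logarithmic height is the logarithm of the Mahler measure of `P`, divided by the degree. -/
def IsMinpoly (P : ℤ[X]) : Prop := Irreducible P ∧ 0 < P.natDegree ∧ 0 < P.leadingCoeff

/-- The operator `∑ a i ∂ ^ i` over `K(x)` has `e` solutions in `K(x)` that are linearly independent over the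
constants. -/
def Sol {K : Type*} [Field K] {n : ℕ} (a : Fin (n + 1) → RatFunc K) (e : ℕ) : Prop :=
  ∃ D : Derivation K (RatFunc K) (RatFunc K), D RatFunc.X = 1 ∧
    ∃ y : Fin e → RatFunc K, (∀ j, ∑ i : Fin (n + 1), a i * (⇑D)^[(i : ℕ)] (y j) = 0) ∧
      ∀ c : Fin e → RatFunc K, (∀ j, D (c j) = 0) → ∑ j, c j * y j = 0 → ∀ j, c j = 0

/-- The reduction modulo `p`. -/
noncomputable def red (p : ℕ) [Fact p.Prime] (f : ℤ[X]) : RatFunc (AlgebraicClosure (ZMod p)) :=
  aeval (RatFunc.X : RatFunc (AlgebraicClosure (ZMod p))) f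

/-- The coefficients of `∑_k c ^ k L_k` over `𝔽̄_p(x)`, where `L_k = ∑ L k i ∂ ^ i`. -/
noncomputable def member {n d : ℕ} (p : ℕ) [Fact p.Prime] (L : Fin (d + 1) → Fin (n + 1) → ℤ[X])
    (c : RatFunc (AlgebraicClosure (ZMod p))) : Fin (n + 1) → RatFunc (AlgebraicClosure (ZMod p)) :=
  fun i => ∑ k : Fin (d + 1), c ^ (k : ℕ) * red p (L k i)

/-- The prime `p` is bad for `ω`, with minimal polynomial `P`: for some reduction `z ∈ 𝔽̄_p` of `ω`, that is for some
root `z` of the reduction of `P`, the operator `L_z = ∑_k z ^ k L_k` does not have `e` independent solutions. -/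
def BadPrime {n d : ℕ} (L : Fin (d + 1) → Fin (n + 1) → ℤ[X]) (e : ℕ) (P : ℤ[X]) (p : ℕ) : Prop :=
  ∃ _ : Fact p.Prime, ∃ z : AlgebraicClosure (ZMod p), aeval z P = 0 ∧ ¬ Sol (member p L (RatFunc.C z)) e

open Classical in
/-- The sum of `log p / p` over the bad primes `N₀ < p` with `y < p ≤ x`. -/
noncomputable def badSum {n d : ℕ} (L : Fin (d + 1) → Fin (n + 1) → ℤ[X]) (e N₀ : ℕ) (P : ℤ[X]) (y x : ℝ) : ℝ :=
  ∑ p ∈ (Icc 1 ⌊x⌋₊).filter fun p : ℕ => y < p ∧ N₀ < p ∧ BadPrime L e P p, Real.log p / p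

/-- Modulo `p` the operator `L_d` is not zero and has order at most `g`, or at least some member of the family has at
most `g` independent rational solutions: the member at infinity `L_d`, or a member with a constant parameter `c`. -/
def Regular {n d : ℕ} (p : ℕ) [Fact p.Prime] (L : Fin (d + 1) → Fin (n + 1) → ℤ[X]) (g : ℕ) : Prop :=
  ((∃ i, red p (L (Fin.last d) i) ≠ 0) ∧ ∀ i : Fin (n + 1), g < i → red p (L (Fin.last d) i) = 0) ∨
    ¬ Sol (fun i => red p (L (Fin.last d) i)) (g + 1) ∨
    ∃ c : RatFunc (AlgebraicClosure (ZMod p)),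
      (∃ D : Derivation (AlgebraicClosure (ZMod p)) (RatFunc (AlgebraicClosure (ZMod p)))
        (RatFunc (AlgebraicClosure (ZMod p))), D RatFunc.X = 1 ∧ D c = 0) ∧ ¬ Sol (member p L c) (g + 1)

/-- The algebraic numbers (up to conjugation) of degree at most `D` and of logarithmic height at most `H` for which the
sum of `log p / p` over the bad primes `N₀ < p` with `y < p ≤ x` is at most `(1 - β) log (x / y) + M`, where
`y = D (1 + H)`. -/
def Few {n d : ℕ} (L : Fin (d + 1) → Fin (n + 1) → ℤ[X]) (e N₀ : ℕ) (β M D H x : ℝ) : Set ℤ[X] :=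
  {P | IsMinpoly P ∧ (P.natDegree : ℝ) ≤ D ∧
    (P.map (Int.castRingHom ℂ)).mahlerMeasure ≤ Real.exp (P.natDegree * H) ∧
    badSum L e N₀ P (D * (1 + H)) x ≤ (1 - β) * Real.log (x / (D * (1 + H))) + M}

/-- The property `Sol`, in the form used by the sieve. -/
def fam {n d : ℕ} (L : Fin (d + 1) → Fin (n + 1) → ℤ[X]) (e : ℕ) : Pool.Agent.H446.AP.Fam :=
  fun p _ z => Sol (member p L (RatFunc.C z)) e

lemma fam_cls {n d g e : ℕ} (hd : 1 ≤ d) (hg : g < e) (N₀ : ℕ) (L : Fin (d + 1) → Fin (n + 1) → ℤ[X])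
    (hL : ∀ (p : ℕ) [Fact p.Prime], N₀ < p → Regular p L g) :
    Pool.Agent.H446.AP.Cls (fam L e) ((d : ℝ) / ((e - g : ℕ) : ℝ)) N₀ := by
  intro p hp hpN T hT
  have h1 := Pool.Agent.H446.AP.classes (p := p) hd hg (fun k i => red p (L k i)) (hL p hpN) T hT
  have h2 : (0 : ℝ) < ((e - g : ℕ) : ℝ) := by
    have : 0 < e - g := by omega
    exact_mod_cast this
  rw [div_mul_eq_mul_div, le_div_iff₀ h2]
  exact_mod_cast h1

lemma badSum_eq {n d : ℕ} (L : Fin (d + 1) → Fin (n + 1) → ℤ[X]) (e N₀ : ℕ) (P : ℤ[X]) (y x : ℝ) :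
    Pool.Agent.H446.AP2.badSum (fam L e) N₀ P y x = badSum L e N₀ P y x := by
  classical
  unfold Pool.Agent.H446.AP2.badSum badSum
  refine Finset.sum_congr ?_ fun _ _ => rfl
  ext p
  rw [mem_filter, mem_filter, Pool.Agent.H446.AP2.prs, mem_filter, Pool.Agent.H446.AP.pr, mem_filter]
  constructor
  · rintro ⟨⟨⟨h1, -⟩, h0⟩, h2, h3⟩
    exact ⟨h1, h0, h2, h3⟩
  · rintro ⟨h1, h0, h2, h3⟩
    exact ⟨⟨⟨h1, h3.1.out⟩, h0⟩, h2, h3⟩

/-- The family `x ∂ - ω ^ d`. -/
noncomputable def euler (d : ℕ) : Fin (d + 1) → Fin (1 + 1) → ℤ[X] :=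
  fun k i => if k = Fin.last d ∧ i = 0 then -1 else if k = 0 ∧ i = 1 then X else 0

lemma euler_regular {d : ℕ} (hd : 1 ≤ d) (p : ℕ) [Fact p.Prime] : Regular p (euler d) 0 := by
  have hne : Fin.last d ≠ 0 := by
    intro h
    have := congrArg Fin.val h
    simp at this
    omega
  left
  refine ⟨⟨0, ?_⟩, ?_⟩
  · simp [euler, red]
  · intro i hi
    have : i = 1 := by
      fin_cases i
      · simp at hi
      · rfl
    subst this
    simp [euler, red, hne]

lemma euler_member {d : ℕ} (hd : 1 ≤ d) (p : ℕ) [Fact p.Prime] (c : RatFunc (AlgebraicClosure (ZMod p))) :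
    member p (euler d) c 0 = -c ^ d ∧ member p (euler d) c 1 = RatFunc.X := by
  have hne : Fin.last d ≠ 0 := by
    intro h
    have := congrArg Fin.val h
    simp at this
    omega
  constructor
  · unfold member
    rw [Finset.sum_eq_single (Fin.last d)]
    · simp [euler, red]
    · intro k _ hk
      simp [euler, red, hk]
    · intro h
      exact absurd (Finset.mem_univ _) h
  · unfold member
    rw [Finset.sum_eq_single 0]
    · simp [euler, red, hne.symm]
    · intro k _ hk
      simp [euler, red, hk]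
    · intro h
      exact absurd (Finset.mem_univ _) h

/-- The polynomial `b T ^ d - a`. -/
noncomputable def bin (d : ℕ) (x : ℕ × ℕ) : ℤ[X] := C (x.2 : ℤ) * X ^ d + C (-(x.1 : ℤ))

lemma bin_coeff {d : ℕ} (hd : 1 ≤ d) (x : ℕ × ℕ) : (bin d x).coeff d = x.2 ∧ (bin d x).coeff 0 = -(x.1 : ℤ) := by
  constructor
  · simp only [bin, coeff_add, coeff_C_mul, coeff_X_pow, if_true, mul_one, coeff_C]
    rw [if_neg (by omega), add_zero]
  · simp only [bin, coeff_add, coeff_C_mul, coeff_X_pow, coeff_C, if_true]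
    rw [if_neg (by omega), mul_zero, zero_add]

lemma bin_natDegree {d : ℕ} (hd : 1 ≤ d) {x : ℕ × ℕ} (hx : 0 < x.2) : (bin d x).natDegree = d := by
  unfold bin
  have h1 : (C (x.2 : ℤ) * X ^ d).natDegree = d := natDegree_C_mul_X_pow _ _ (by exact_mod_cast hx.ne')
  rw [natDegree_add_eq_left_of_natDegree_lt, h1]
  rw [h1, natDegree_C]
  exact hd

lemma bin_isMinpoly {d : ℕ} (hd : 1 ≤ d) {x : ℕ × ℕ} (h1 : Odd x.1) (h2 : Odd x.2) (hco : Nat.Coprime x.1 x.2) :
    IsMinpoly (bin d (2 * x.1, x.2)) := by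
  have hx : 0 < x.2 := h2.pos
  have hdeg : (bin d (2 * x.1, x.2)).natDegree = d := bin_natDegree hd hx
  have hlc : (bin d (2 * x.1, x.2)).leadingCoeff = x.2 := by
    rw [leadingCoeff, hdeg, (bin_coeff hd _).1]
  have hprim : (bin d (2 * x.1, x.2)).IsPrimitive := by
    rw [isPrimitive_iff_isUnit_of_C_dvd]
    intro r hr
    rw [C_dvd_iff_dvd_coeff] at hr
    have e1 := hr d
    have e2 := hr 0
    rw [(bin_coeff hd _).1] at e1
    rw [(bin_coeff hd _).2, dvd_neg] at e2
    have hco2 : IsCoprime ((2 * x.1 : ℕ) : ℤ) (x.2 : ℤ) := by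
      rw [Nat.isCoprime_iff_coprime]
      exact Nat.Coprime.mul_left (Nat.coprime_two_left.2 h2) hco
    exact hco2.isUnit_of_dvd' e2 e1
  have h2p : Prime (2 : ℤ) := Int.prime_two
  refine ⟨?_, by rw [hdeg]; exact hd, by rw [hlc]; exact_mod_cast hx⟩
  refine irreducible_of_eisenstein_criterion (P := Ideal.span {(2 : ℤ)}) ?_ ?_ ?_ ?_ ?_ hprim
  · exact (Ideal.span_singleton_prime (by norm_num)).2 h2p
  · rw [hlc, Ideal.mem_span_singleton]
    intro h
    have : 2 ∣ x.2 := by exact_mod_cast h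
    exact (Nat.not_even_iff_odd.2 h2) (even_iff_two_dvd.2 this)
  · intro m hm
    have hm' : m < d := by
      have h3 : (bin d (2 * x.1, x.2)).degree = (d : ℕ) := by
        rw [degree_eq_natDegree (by
          intro h
          rw [h, natDegree_zero] at hdeg
          omega), hdeg]
      rw [h3] at hm
      exact_mod_cast hm
    rw [Ideal.mem_span_singleton]
    simp only [bin, coeff_add, coeff_C_mul, coeff_X_pow, coeff_C]
    rw [if_neg (by omega), mul_zero, zero_add]
    split_ifs
    · rw [dvd_neg]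
      exact ⟨x.1, by push_cast; ring⟩
    · exact dvd_zero _
  · rw [← natDegree_pos_iff_degree_pos, hdeg]
    exact hd
  · rw [(bin_coeff hd _).2, Ideal.span_singleton_pow, Ideal.mem_span_singleton]
    intro h
    obtain ⟨k, hk⟩ := h1
    simp only at h
    push_cast at h
    rw [hk] at h
    push_cast at h
    omega
  
lemma bin_mahler {d : ℕ} (hd : 1 ≤ d) {x : ℕ × ℕ} (hx : 0 < x.2) :
    ((bin d x).map (Int.castRingHom ℂ)).mahlerMeasure ≤ x.1 + x.2 := by
  refine (mahlerMeasure_le_sum_norm_coeff _).trans ?_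
  have h3 : (bin d x).map (Int.castRingHom ℂ) = C ((x.2 : ℕ) : ℂ) * X ^ d + C (-((x.1 : ℕ) : ℂ)) := by
    simp [bin]
  have hdeg : ((bin d x).map (Int.castRingHom ℂ)).natDegree = d := by
    rw [natDegree_map_eq_of_injective (RingHom.injective_int _), bin_natDegree hd hx]
  rw [Polynomial.sum_over_range _ (fun _ => norm_zero), hdeg, h3, Finset.sum_range_succ]
  have h4 : ∑ i ∈ range d, ‖(C ((x.2 : ℕ) : ℂ) * X ^ d + C (-((x.1 : ℕ) : ℂ))).coeff i‖ = x.1 := by
    rw [Finset.sum_eq_single 0]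
    · simp only [coeff_add, coeff_C_mul, coeff_X_pow, coeff_C, if_true]
      rw [if_neg (by omega)]
      simp
    · intro i hi hi0
      rw [mem_range] at hi
      simp only [coeff_add, coeff_C_mul, coeff_X_pow, coeff_C]
      rw [if_neg (by omega), if_neg hi0]
      simp
    · intro h
      exact absurd (mem_range.2 hd) h
  have h5 : ‖(C ((x.2 : ℕ) : ℂ) * X ^ d + C (-((x.1 : ℕ) : ℂ))).coeff d‖ = x.2 := by
    simp only [coeff_add, coeff_C_mul, coeff_X_pow, coeff_C, if_true]
    rw [if_neg (by omega)]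
    simp
  rw [h4, h5]

open Pool.Agent.W432.PC in
lemma good_of_pow {d : ℕ} (hd : 1 ≤ d) {P : ℤ[X]} (p : ℕ)
    (h : ∀ (_ : Fact p.Prime) (z : AlgebraicClosure (ZMod p)), aeval z P = 0 → ∃ m : ℕ, z ^ d = m) :
    ¬ BadPrime (euler d) 1 P p := by
  rintro ⟨hp, z, hz, hbad⟩
  apply hbad
  obtain ⟨m, hzm⟩ := h hp z hz
  have hD : ddx (AlgebraicClosure (ZMod p)) RatFunc.X = 1 := ddx_X _
  refine ⟨ddx _, hD, fun _ => RatFunc.X ^ m, ?_, ?_⟩
  · intro _
    rw [Fin.sum_univ_two, (euler_member hd p _).1, (euler_member hd p _).2, ← map_pow, hzm]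
    show -RatFunc.C ((m : ℕ) : AlgebraicClosure (ZMod p)) * RatFunc.X ^ m +
      RatFunc.X * ddx _ (RatFunc.X ^ m) = 0
    rw [Derivation.leibniz_pow, hD]
    rcases Nat.eq_zero_or_pos m with h | h
    · simp [h]
    · have h1 : (RatFunc.X : RatFunc (AlgebraicClosure (ZMod p))) ^ m = RatFunc.X * RatFunc.X ^ (m - 1) := by
        rw [← pow_succ']
        congr 1
        omega
      rw [h1]
      simp
      ring
  · intro c _ h j
    rw [Fin.sum_univ_one] at h
    have h1 := (mul_eq_zero.1 h).resolve_right (pow_ne_zero _ RatFunc.X_ne_zero)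
    rw [Fin.eq_zero j]
    exact h1

lemma bin_good {d : ℕ} (hd : 1 ≤ d) {x : ℕ × ℕ} (hco : Nat.Coprime x.1 x.2) (p : ℕ) :
    ¬ BadPrime (euler d) 1 (bin d x) p := by
  refine good_of_pow hd p fun hp z hz => ?_
  have hz' : ((x.2 : ℕ) : AlgebraicClosure (ZMod p)) * z ^ d = ((x.1 : ℕ) : AlgebraicClosure (ZMod p)) := by
    have h1 : aeval z (bin d x) =
        ((x.2 : ℕ) : AlgebraicClosure (ZMod p)) * z ^ d - ((x.1 : ℕ) : AlgebraicClosure (ZMod p)) := by
      simp [bin, sub_eq_add_neg]
    rw [h1] at hz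
    exact sub_eq_zero.1 hz
  have hb : ((x.2 : ℕ) : ZMod p) ≠ 0 := by
    intro h
    have h1 : p ∣ x.2 := (ZMod.natCast_eq_zero_iff _ _).1 h
    have h2 : ((x.2 : ℕ) : AlgebraicClosure (ZMod p)) = 0 := by
      have := congrArg (algebraMap (ZMod p) (AlgebraicClosure (ZMod p))) h
      simpa using this
    rw [h2, zero_mul] at hz'
    have h3 : ((x.1 : ℕ) : ZMod p) = 0 := by
      have h4 : algebraMap (ZMod p) (AlgebraicClosure (ZMod p)) ((x.1 : ℕ) : ZMod p) = 0 := by
        simpa using hz'.symm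
      exact (map_eq_zero _).1 h4
    have h4 : p ∣ x.1 := (ZMod.natCast_eq_zero_iff _ _).1 h3
    have h5 := Nat.dvd_gcd h4 h1
    rw [hco] at h5
    exact hp.out.one_lt.ne' (Nat.dvd_one.1 h5)
  refine ⟨(((x.1 : ℕ) : ZMod p) / ((x.2 : ℕ) : ZMod p)).val, ?_⟩
  set m : ℕ := (((x.1 : ℕ) : ZMod p) / ((x.2 : ℕ) : ZMod p)).val with hm
  have h1 : ((m : ℕ) : ZMod p) = ((x.1 : ℕ) : ZMod p) / ((x.2 : ℕ) : ZMod p) := by
    rw [hm, ZMod.natCast_val, ZMod.cast_id]
  have h2 : ((x.2 : ℕ) : ZMod p) * ((m : ℕ) : ZMod p) = ((x.1 : ℕ) : ZMod p) := by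
    rw [h1]
    field_simp
  have h3 := congrArg (algebraMap (ZMod p) (AlgebraicClosure (ZMod p))) h2
  rw [map_mul, map_natCast, map_natCast, map_natCast] at h3
  have h4 : ((x.2 : ℕ) : AlgebraicClosure (ZMod p)) ≠ 0 := by
    intro h
    apply hb
    have h5 : algebraMap (ZMod p) (AlgebraicClosure (ZMod p)) ((x.2 : ℕ) : ZMod p) = 0 := by
      simpa using h
    exact (map_eq_zero _).1 h5
  rw [← hz'] at h3
  exact (mul_left_cancel₀ h4 h3).symm

lemma badSum_eq_zero {n d : ℕ} {L : Fin (d + 1) → Fin (n + 1) → ℤ[X]} {e : ℕ} {P : ℤ[X]}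
    (h : ∀ p, ¬ BadPrime L e P p) (N₀ : ℕ) (y x : ℝ) : badSum L e N₀ P y x = 0 := by
  classical
  unfold badSum
  rw [Finset.filter_false_of_mem, Finset.sum_empty]
  intro p _ hp
  exact h p hp.2.2

lemma few_finite {n d : ℕ} (L : Fin (d + 1) → Fin (n + 1) → ℤ[X]) (e N₀ : ℕ) {β M D H x : ℝ} (hH : 0 ≤ H) :
    (Few L e N₀ β M D H x).Finite := by
  refine (finite_mahlerMeasure_le ⌊D⌋₊ (Real.toNNReal (Real.exp (⌊D⌋₊ * H)))).subset ?_
  rintro P ⟨-, h2, h3, -⟩
  have h4 : P.natDegree ≤ ⌊D⌋₊ := Nat.le_floor h2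
  refine ⟨h4, ?_⟩
  rw [Real.coe_toNNReal']
  refine (h3.trans (Real.exp_le_exp.2 ?_)).trans (le_max_left _ _)
  have : (P.natDegree : ℝ) ≤ ⌊D⌋₊ := by exact_mod_cast h4
  gcongr

/-- **Theorem.** (1) Let `d ≥ 1`, `g < e`, `0 < β ≤ 1`, and let `M` and `N₀` be given. There is a constant `C ≥ 1` with
the following property. Let `L_0, …, L_d` be differential operators over `ℤ[x]` of order at most `n` which are `Regular`
modulo the primes `p > N₀` (for example, `L_d` has order at most `g` and is not zero modulo `p`). Let `D ≥ 1`, `H ≥ 0`,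
`y = D (1 + H)` and `x = C y exp (2 d H / ((e - g) β ^ 2))`. There are at most `x` algebraic numbers `ω` (counted with
their conjugates) of degree at most `D` and of logarithmic height at most `H` for which the sum of `log p / p`, over the
primes `p > N₀` in `(y, x]` such that some reduction of `∑ ω ^ k L_k` modulo `p` does not have `e` independent rational
solutions, is at most `(1 - β) log (x / y) + M`.
(2) For `e - g = β = 1` the exponent `2 d` is optimal, for every `d`: for the family `x ∂ - ω ^ d` (`n = e = 1`,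
`g = 0`) and all `D ≥ d` there are at least `exp (2 d H) / 1728` such numbers, without bad primes. -/
theorem result :
    (∀ (n d g e : ℕ), 1 ≤ d → g < e → ∀ β M : ℝ, 0 < β → β ≤ 1 → ∀ N₀ : ℕ, ∃ C : ℝ, 1 ≤ C ∧
      ∀ L : Fin (d + 1) → Fin (n + 1) → ℤ[X], (∀ (p : ℕ) [Fact p.Prime], N₀ < p → Regular p L g) →
        ∀ D H x : ℝ, 1 ≤ D → 0 ≤ H →
          x = C * (D * (1 + H)) * Real.exp (2 * d * H / (((e - g : ℕ) : ℝ) * β ^ 2)) →
            (Few L e N₀ β M D H x).Finite ∧ ∑ᶠ P ∈ Few L e N₀ β M D H x, (P.natDegree : ℝ) ≤ x) ∧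
    (∀ d : ℕ, 1 ≤ d → (∀ (p : ℕ) [Fact p.Prime], Regular p (euler d) 0) ∧
      ∀ β M D H x : ℝ, β ≤ 1 → 0 ≤ M → (d : ℝ) ≤ D → 0 ≤ H → D * (1 + H) ≤ x →
        Real.exp (2 * d * H) / 1728 ≤ ∑ᶠ P ∈ Few (euler d) 1 0 β M D H x, (P.natDegree : ℝ)) := by
  classical
  refine ⟨?_, fun d hd => ⟨fun p _ => euler_regular hd p, ?_⟩⟩
  · intro n d g e hd hg β M hβ hβ1 N₀
    have hd0 : (0 : ℝ) < d := by exact_mod_cast hd
    have he0 : (0 : ℝ) < ((e - g : ℕ) : ℝ) := by
      have : 0 < e - g := by omega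
      exact_mod_cast this
    obtain ⟨C, hC1, hC⟩ := Pool.Agent.H446.AP2.count (α := (d : ℝ) / ((e - g : ℕ) : ℝ)) (by positivity) hβ M N₀
    refine ⟨C, hC1, fun L hL D H x hD hH hx => ?_⟩
    have hfin := few_finite L e N₀ (β := β) (M := M) (D := D) (x := x) hH
    refine ⟨hfin, ?_⟩
    rw [finsum_mem_eq_finite_toFinset_sum _ hfin]
    have he : 2 * ((d : ℝ) / ((e - g : ℕ) : ℝ)) * H / β ^ 2 = 2 * d * H / (((e - g : ℕ) : ℝ) * β ^ 2) := by
      field_simp
    have h1 := hC (fam L e) (fam_cls hd hg N₀ L hL) D H hD hH hfin.toFinset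
    rw [he, ← hx] at h1
    have hy : 0 < D * (1 + H) := by positivity
    have hxy : C * Real.exp (2 * d * H / (((e - g : ℕ) : ℝ) * β ^ 2)) = x / (D * (1 + H)) := by
      rw [hx, eq_div_iff hy.ne']
      ring
    refine h1 fun P hP => ?_
    rw [Set.Finite.mem_toFinset] at hP
    obtain ⟨h2, h3, h4, h5⟩ := hP
    refine ⟨h2, h3, ?_, ?_⟩
    · rw [← Real.log_exp ((P.natDegree : ℝ) * H)]
      exact Real.log_le_log (lt_of_lt_of_le one_pos (Pool.Agent.H446.AP.one_le_mm h2.1.ne_zero)) h4
    · rw [badSum_eq, hxy]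
      exact h5
  · intro β M D H x hβ hM hD hH hx
    have hfin := few_finite (euler d) 1 0 (β := β) (M := M) (D := D) (x := x) hH
    have hd0 : (1 : ℝ) ≤ d := by exact_mod_cast hd
    have hlog : 0 ≤ (1 - β) * Real.log (x / (D * (1 + H))) + M := by
      have h1 : 0 < D * (1 + H) := by
        have : 0 < D := by linarith
        positivity
      have h2 : 1 ≤ x / (D * (1 + H)) := by
        rw [le_div_iff₀ h1]
        linarith
      have h3 := Real.log_nonneg h2
      have h4 : 0 ≤ 1 - β := by linarith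
      positivity
    have hge : ∀ A : Finset ℤ[X], (∀ P ∈ A, P ∈ Few (euler d) 1 0 β M D H x) →
        (A.card : ℝ) ≤ ∑ᶠ P ∈ Few (euler d) 1 0 β M D H x, (P.natDegree : ℝ) := by
      intro A hA
      rw [finsum_mem_eq_finite_toFinset_sum _ hfin]
      have h1 : A ⊆ hfin.toFinset := by
        intro P hP
        rw [Set.Finite.mem_toFinset]
        exact hA P hP
      calc (A.card : ℝ) = ∑ _P ∈ A, (1 : ℝ) := by simp
        _ ≤ ∑ P ∈ A, (P.natDegree : ℝ) := Finset.sum_le_sum fun P hP => by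
            have := (hA P hP).1.2.1
            exact_mod_cast this
        _ ≤ _ := Finset.sum_le_sum_of_subset_of_nonneg h1 fun _ _ _ => Nat.cast_nonneg _
    obtain ⟨Y, hY⟩ : ∃ Y, Y = Real.exp (d * H) := ⟨_, rfl⟩
    have hYY : Real.exp (2 * d * H) = Y ^ 2 := by
      rw [hY, ← Real.exp_nat_mul]
      congr 1
      push_cast
      ring
    have hY1 : 1 ≤ Y := by
      rw [hY]
      exact Real.one_le_exp (by positivity)
    rw [hYY]
    rcases lt_or_ge Y 6 with hY6 | hY6
    · have h1 := hge {X - C 1} (by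
        intro P hP
        rw [mem_singleton] at hP
        subst hP
        have e1 : (X - C (1 : ℤ)).natDegree = 1 := natDegree_X_sub_C 1
        refine ⟨⟨irreducible_X_sub_C 1, by rw [e1]; exact one_pos, by rw [leadingCoeff_X_sub_C]; exact one_pos⟩,
          ?_, ?_, ?_⟩
        · rw [e1, Nat.cast_one]
          linarith
        · rw [e1, Polynomial.map_sub, map_X, map_C]
          rw [show (Int.castRingHom ℂ) 1 = 1 from map_one _, mahlerMeasure_X_sub_C, norm_one, max_self]
          exact Real.one_le_exp (by positivity)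
        · rw [badSum_eq_zero]
          · exact hlog
          · intro p
            refine good_of_pow hd p fun hp z hz => ⟨1, ?_⟩
            have : z = 1 := by
              have h2 : aeval z (X - C (1 : ℤ)) = z - 1 := by simp
              rw [h2] at hz
              exact sub_eq_zero.1 hz
            rw [this]
            simp)
      rw [card_singleton, Nat.cast_one] at h1
      have : Y ^ 2 / 1728 ≤ 1 := by nlinarith
      linarith
    · obtain ⟨N, hN⟩ : ∃ N, N = ⌊Y / 6⌋₊ := ⟨_, rfl⟩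
      have hN1 : 1 ≤ N := by
        rw [hN]
        exact Nat.floor_pos.2 (by linarith)
      have hNY : 6 * (N : ℝ) ≤ Y := by
        have := Nat.floor_le (by linarith : 0 ≤ Y / 6)
        rw [← hN] at this
        linarith
      have hNY2 : Y / 12 ≤ N := by
        have h1 := Nat.lt_floor_add_one (Y / 6)
        rw [← hN] at h1
        have h2 : (1 : ℝ) ≤ N := by exact_mod_cast hN1
        linarith
      have h1 := Pool.Agent.H446.AP2.odd_pairs N hN1
      set A := ((Icc 1 (2 * N)) ×ˢ (Icc 1 (2 * N))).filter fun x : ℕ × ℕ =>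
        Nat.Coprime x.1 x.2 ∧ Odd x.1 ∧ Odd x.2 with hA
      have hinj : Function.Injective fun u : ℕ × ℕ => bin d (2 * u.1, u.2) := by
        intro u v h
        have h2 := congrArg (fun q => q.coeff d) h
        have h3 := congrArg (fun q => q.coeff 0) h
        simp only [(bin_coeff hd _).1, (bin_coeff hd _).2] at h2 h3
        refine Prod.ext ?_ ?_
        · push_cast at h3
          omega
        · exact_mod_cast h2
      have h2 := hge (A.image fun u : ℕ × ℕ => bin d (2 * u.1, u.2)) (by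
        intro P hP
        rw [Finset.mem_image] at hP
        obtain ⟨u, hu, rfl⟩ := hP
        rw [hA, mem_filter, mem_product, mem_Icc, mem_Icc] at hu
        obtain ⟨⟨⟨u1, u2⟩, u3, u4⟩, u5, u6, u7⟩ := hu
        have e1 : (bin d (2 * u.1, u.2)).natDegree = d := bin_natDegree hd u3
        refine ⟨bin_isMinpoly hd u6 u7 u5, ?_, ?_, ?_⟩
        · rw [e1]
          exact hD
        · rw [e1, ← hY]
          refine (bin_mahler hd (x := (2 * u.1, u.2)) u3).trans ?_
          have v1 : (u.1 : ℝ) ≤ 2 * N := by exact_mod_cast u2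
          have v2 : (u.2 : ℝ) ≤ 2 * N := by exact_mod_cast u4
          push_cast
          linarith
        · rw [badSum_eq_zero]
          · exact hlog
          · intro p
            exact bin_good hd (Nat.Coprime.mul_left (Nat.coprime_two_left.2 u7) u5) p)
      rw [Finset.card_image_of_injective _ hinj] at h2
      have h3 : (Y / 12) ^ 2 ≤ (N : ℝ) ^ 2 := pow_le_pow_left₀ (by linarith) hNY2 2
      nlinarith

end Pool.Agent.Results.MP_aa40d3_nt.AlgebraicParameters
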